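import Pool.Agent.Q269.IsoFour.Fin
import Pool.Agent.Q52.ISO.Fin

/-!
# The curves with a rational cyclic subgroup of order four, ordered by height
-/

set_option autoImplicit false

namespace Pool.Agent.Q44.PY

open Finset Filter Topology
open Pool.Agent.W307.RT (Sh Cv HasT)
open Pool.Agent.Q269.IsoFour
open Pool.Agent.Q52.ISO
open Pool.Agent.TH841.NO (Qu SQ)

/-- the statements for the two curves -/
def G4 (c : ℤ × ℤ) : Prop := ∃ a s : ℤ, Pool.Agent.Q52.ISO.Iso (Mo a (s ^ 2)) (Eo c.1 c.2) ∧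
  Finite (Mo a (s ^ 2)).toAffine.Point ∧
  ((SQ a (s ^ 2)).ncard = 2 ^ ex a (s ^ 2) ∧
    (SQ (-2 * a) (a ^ 2 - 4 * s ^ 2)).ncard = 2 ^ ex (-2 * a) (a ^ 2 - 4 * s ^ 2) ∧
    Conj a (s ^ 2)) ∧
  ((SQ (-2 * a) (a ^ 2 - 4 * s ^ 2)).ncard = 2 ^ ex (-2 * a) (a ^ 2 - 4 * s ^ 2) ∧
    (SQ (-2 * (-2 * a)) ((-2 * a) ^ 2 - 4 * (a ^ 2 - 4 * s ^ 2))).ncard =
      2 ^ ex (-2 * (-2 * a)) ((-2 * a) ^ 2 - 4 * (a ^ 2 - 4 * s ^ 2)) ∧
    Conj (-2 * a) (a ^ 2 - 4 * s ^ 2))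

lemma disc_Eo {c : ℤ × ℤ} (h : Dn c) : (Eo c.1 c.2).Δ ≠ 0 := by
  have h1 : (Eo c.1 c.2).Δ = -16 * ((4 * c.1 ^ 3 + 27 * c.2 ^ 2 : ℤ) : ℚ) := by
    simp only [Eo, WeierstrassCurve.Δ, WeierstrassCurve.b₂, WeierstrassCurve.b₄,
      WeierstrassCurve.b₆, WeierstrassCurve.b₈]
    push_cast
    ring
  rw [h1]
  exact mul_ne_zero (by norm_num) (by exact_mod_cast h)

theorem fin_TP {c : ℤ × ℤ} (hD : Dn c) (hT : HasT 2 (Sh c.1 c.2)) (h : TP 0 c) :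
    Finite (Eo c.1 c.2).toAffine.Point := by
  obtain ⟨h1, -⟩ := h
  have hr := Pool.Agent.Y667.MT.rank_le hD hT h1.1 h1.2.1
  have hfg : Module.Finite ℤ (Sh c.1 c.2).toAffine.Point := Pool.Agent.Y667.PA.fin_of hD hT
  exact fin_of_rank (M := (Sh c.1 c.2).toAffine.Point) (Nat.le_zero.1 hr)

/-- the isomorphism with the isogenous curve -/
theorem iso_rev {c : ℤ × ℤ} {e s w : ℤ} (hw : 0 < w)
    (h1 : w ^ 4 * (-3 * e ^ 2 - 4 * s ^ 2) = 2 ^ 4 * c.1)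
    (h2 : w ^ 6 * (2 * e ^ 3 - 8 * e * s ^ 2) = 2 ^ 6 * c.2) :
    Pool.Agent.Q52.ISO.Iso (Mo (-2 * (3 * e)) ((3 * e) ^ 2 - 4 * s ^ 2)) (Eo c.1 c.2) := by
  have hw0 : (w : ℚ) ≠ 0 := by exact_mod_cast hw.ne'
  have hu : (2 / w : ℚ) ≠ 0 := div_ne_zero two_ne_zero hw0
  have k1 : (w : ℚ) ^ 4 * (-3 * e ^ 2 - 4 * s ^ 2) = 2 ^ 4 * c.1 := by exact_mod_cast h1
  have k2 : (w : ℚ) ^ 6 * (2 * e ^ 3 - 8 * e * s ^ 2) = 2 ^ 6 * c.2 := by exact_mod_cast h2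
  refine ⟨⟨Units.mk0 (2 / w : ℚ) hu, 2 * e, 0, 0⟩, ?_⟩
  apply WeierstrassCurve.ext
  · simp [Mo, Eo, WeierstrassCurve.variableChange_a₁]
  · simp only [Mo, Eo, WeierstrassCurve.variableChange_a₂, Units.val_inv_eq_inv_val, Units.val_mk0]
    push_cast
    ring
  · simp [Mo, Eo, WeierstrassCurve.variableChange_a₃]
  · simp only [Mo, Eo, WeierstrassCurve.variableChange_a₄, Units.val_inv_eq_inv_val, Units.val_mk0]
    push_cast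
    field_simp
    linear_combination k1
  · simp only [Mo, Eo, WeierstrassCurve.variableChange_a₆, Units.val_inv_eq_inv_val, Units.val_mk0]
    push_cast
    field_simp
    linear_combination k2

theorem good_rev {c : ℤ × ℤ} {d : (ℤ × ℤ) × ℤ} (hD : Dn c) (hT : HasT 2 (Sh c.1 c.2))
    (hP : TP 0 c) (hR : RR c d) (hd : d.2 ^ 3 + d.1.1 * d.2 + d.1.2 = 0) : G4 d.1 := by
  obtain ⟨e, s, w, hw, h1, h2, h3, h4, h5⟩ := hR
  have hws : (w ^ 2) ^ 2 ∣ s ^ 2 := by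
    refine ⟨d.1.1 + 3 * d.2 ^ 2, ?_⟩
    rw [h3] at h4
    linear_combination h4
  obtain ⟨s0, hs0⟩ := (Int.pow_dvd_pow_iff (by norm_num)).1 hws
  have hw4 : w ^ 4 ≠ 0 := pow_ne_zero 4 hw.ne'
  have k1 : 3 * d.2 ^ 2 + d.1.1 = s0 ^ 2 := by
    apply mul_left_cancel₀ hw4
    rw [h3, hs0] at h4
    linear_combination -h4
  have i1 := iso_root hd
  rw [k1] at i1
  have i2 : Pool.Agent.Q52.ISO.Iso (Mo (-2 * (3 * d.2)) ((3 * d.2) ^ 2 - 4 * s0 ^ 2))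
      (Eo c.1 c.2) := by
    refine iso_rev hw ?_ ?_
    · rw [← h1, h3, hs0]
      ring
    · rw [← h2, h3, hs0]
      ring
  have hfin := fin_TP hD hT hP
  have hΔ := disc_Eo hD
  obtain ⟨g1, g2, g3, g4⟩ := conj_of hP.2 hfin hΔ (3 * d.2) (s0 ^ 2) (Or.inr i2)
  obtain ⟨f1, f2, f3, f4⟩ := conj_of hP.2 hfin hΔ (-2 * (3 * d.2)) ((3 * d.2) ^ 2 - 4 * s0 ^ 2)
    (Or.inl i2)
  exact ⟨3 * d.2, s0, i1, g1, ⟨g2, g3, g4⟩, ⟨f2, f3, f4⟩⟩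

open Classical in
/-- **a positive proportion of the curves** -/
theorem many4 : ∃ δ : ℝ, 0 < δ ∧ ∀ᶠ H : ℕ in atTop,
    δ * ((F4 H).card : ℝ) ≤ (((F4 H).filter G4).card : ℝ) := by
  obtain ⟨c0, hc0, H1, h1⟩ := many 0
  obtain ⟨D, hD, H2, h2⟩ := compare'
  refine ⟨c0 / (3 * D), by positivity, ?_⟩
  filter_upwards [eventually_ge_atTop (max (5000 * H1) H2)] with H hH
  have hH1 : H1 ≤ H / 5000 := by
    rw [Nat.le_div_iff_mul_le (by norm_num)]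
    have := (le_max_left (5000 * H1) H2).trans hH
    omega
  have g1 := h1 (H / 5000) hH1
  have g2 := h2 H ((le_max_right _ _).trans hH)
  have g3 := sum_rel ((Cv 2 (H / 5000)).filter (TP 0)) ((F4 H).filter G4) RR (fun _ => 1)
    (fun _ => 1) (fun _ => zero_le_one) (fun c hc => by
      rw [mem_filter] at hc
      obtain ⟨k1, k2, k3, k4⟩ := mem_Cv2.1 hc.1
      obtain ⟨d, e1, e2, e3, e4, e5, e6, -⟩ := exists_rev k1 k4 k2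
      exact ⟨d, e1, mem_filter.2 ⟨mem_F4.2 ⟨e2, Hl_mono (Nat.mul_div_le H 5000) e4, e3, e5⟩,
        good_rev k1 k4 hc.2 e1 e6⟩, e6, le_rfl⟩)
    (fun c1 h1 c2 h2 d r1 r2 => RR_inj r1 r2 (mem_Cv2.1 (mem_filter.1 h1).1).2.2.1
      (mem_Cv2.1 (mem_filter.1 h2).1).2.2.1)
  simp only [sum_const, nsmul_eq_mul, mul_one] at g3
  have g4 : c0 * ((Cv 2 (H / 5000)).card : ℝ) ≤ 3 * (((F4 H).filter G4).card : ℝ) := g1.trans g3
  calc c0 / (3 * D) * ((F4 H).card : ℝ) ≤ c0 / (3 * D) * (D * (Cv 2 (H / 5000)).card) := by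
        gcongr
    _ = c0 * ((Cv 2 (H / 5000)).card : ℝ) / 3 := by field_simp
    _ ≤ _ := by linarith

end Pool.Agent.Q44.PY
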