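import Pool.Agent.Q44.BS.Bc
import Pool.Agent.Q44.BS.Pub
import Pool.Agent.Q44.BN.Qrt

/-!
# The quartics of the descent for the curves with full `2`-torsion and a rational cyclic isogeny of degree four
-/

set_option autoImplicit false
set_option linter.unusedVariables false

open scoped Classical

namespace Q44.BS

open Finset Filter Topology
open Q44.BC (lam lam_tail)
open Q44.TK (Fm hF hF_eq fin_Fm)
open Q44.TI (SelS cardf ratio pd)
open Q44.BN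

namespace Cz

variable (e : Cz)

theorem posb : 0 < e.b := by
  obtain ⟨s, hs⟩ := e.hb
  have : s ≠ 0 := by
    rintro rfl
    exact e.hb0 (by rw [hs]; ring)
  rw [hs]
  exact mul_self_pos.2 this

theorem posc : 0 < e.a ^ 2 - 4 * e.b := by
  obtain ⟨t, ht⟩ := e.hs
  have h0 : 0 ≤ e.b * (e.a ^ 2 - 4 * e.b) := by
    rw [ht]
    exact mul_self_nonneg t
  have h1 : 0 ≤ e.a ^ 2 - 4 * e.b := by
    by_contra hc
    exact absurd h0 (not_le.2 (mul_neg_of_pos_of_neg e.posb (not_le.1 hc)))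
  exact lt_of_le_of_ne h1 e.hc.symm

theorem pos_D {D : ℤ} (hD : D ≠ 0) : (0 < e.b * D ^ 2 ∧ (e.a * D) ^ 2 - 4 * (e.b * D ^ 2) ≠ 0) ∧
    0 < (e.a * D) ^ 2 - 4 * (e.b * D ^ 2) ∧
    (-2 * (e.a * D)) ^ 2 - 4 * ((e.a * D) ^ 2 - 4 * (e.b * D ^ 2)) ≠ 0 := by
  have hD2 : 0 < D ^ 2 := by positivity
  have e1 : (e.a * D) ^ 2 - 4 * (e.b * D ^ 2) = (e.a ^ 2 - 4 * e.b) * D ^ 2 := by ring
  have e2 : (-2 * (e.a * D)) ^ 2 - 4 * ((e.a * D) ^ 2 - 4 * (e.b * D ^ 2)) =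
      16 * (e.b * D ^ 2) := by ring
  have h1 : 0 < e.b * D ^ 2 := mul_pos e.posb hD2
  have h2 : 0 < (e.a * D) ^ 2 - 4 * (e.b * D ^ 2) := by
    rw [e1]
    exact mul_pos e.posc hD2
  refine ⟨⟨h1, h2.ne'⟩, h2, ?_⟩
  rw [e2]
  exact (mul_pos (by norm_num) h1).ne'

theorem nS_eq {D : ℤ} (hD : D ≠ 0) : (Q44.BN.SelQ (e.a * D) (e.b * D ^ 2)).ncard = e.nS D := by
  obtain ⟨⟨h1, h2⟩, -, -⟩ := e.pos_D hD
  rw [Q44.BN.SelQ_eq h1 h2]
  rfl

theorem nS'_eq {D : ℤ} (hD : D ≠ 0) :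
    (Q44.BN.SelQ (-2 * (e.a * D)) ((e.a * D) ^ 2 - 4 * (e.b * D ^ 2))).ncard = e.nS' D := by
  obtain ⟨-, h1, h2⟩ := e.pos_D hD
  rw [Q44.BN.SelQ_eq h1 h2]
  rfl

/-- the orders are powers of two -/
theorem pow_all {D : ℤ} (hD : Squarefree D) : (∃ r, e.nS D = 2 ^ r) ∧ ∃ r, e.nS' D = 2 ^ r := by
  obtain ⟨g, d, h1, h2, rfl⟩ := e.dec hD
  have key : ∀ c : Cq, c.m = e.m → c.d = d →
      ∃ r, (SelS (c.A * d) (c.B * (d : ℤ) ^ 2)).ncard = 2 ^ r := by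
    intro c hcm hcd
    have h2' : d.Coprime c.m := by rw [hcm]; exact h2
    have h4 : c.Dm d := ⟨⟨h1, h2'⟩, by rw [hcd]⟩
    obtain ⟨⟨k1, k2⟩, k3⟩ := (c.Dm_iff d).1 h4
    have k4 := (c.GT_iff k2).1 k3
    have h3 := c.ncard_SelS k2 k4
    have e1 : pd d.primeFactors = (d : ℤ) := by
      unfold pd
      rw [Nat.prod_primeFactors_of_squarefree h1]
    rw [e1] at h3
    exact ⟨_, h3.2⟩
  have h3 := key (e.cu g h2) rfl rfl
  have h4 := key (e.cud g h2) rfl rfl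
  have e1 : (e.cu g h2).A * (d : ℤ) = e.a * (UU g * d) := by
    show e.a * UU g * d = _
    ring
  have e2 : (e.cu g h2).B * (d : ℤ) ^ 2 = e.b * (UU g * d) ^ 2 := by
    show e.b * UU g ^ 2 * d ^ 2 = _
    ring
  have e3 : (e.cud g h2).A * (d : ℤ) = -2 * (e.a * (UU g * d)) := by
    show -2 * (e.a * UU g) * d = _
    ring
  have e4 : (e.cud g h2).B * (d : ℤ) ^ 2 =
      (e.a * (UU g * d)) ^ 2 - 4 * (e.b * (UU g * d) ^ 2) := by
    show ((e.a * UU g) ^ 2 - 4 * (e.b * UU g ^ 2)) * d ^ 2 = _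
    ring
  rw [e1, e2] at h3
  rw [e3, e4] at h4
  exact ⟨h3, h4⟩

/-- equivalent properties -/
theorem prp_congr {D₀ : ℤ} {P Q : ℤ → Prop} {c : ℝ} (h : ∀ D, Squarefree D → (P D ↔ Q D))
    (hP : e.Prp D₀ P c) : e.Prp D₀ Q c := by
  refine Tendsto.congr (fun X => ?_) hP
  refine congrArg₂ (fun x y : ℕ => (x : ℝ) / (y : ℝ)) ?_ rfl
  congr 1
  ext D
  rw [mem_filter, mem_filter]
  exact and_congr_right fun hD => and_congr_right fun _ => h D (mem_Sq.1 hD).2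

/-- **both Selmer groups are as small as possible** -/
theorem facts_sm {D₀ : ℤ} (h : Squarefree D₀) (ht : e.tau D₀ = 1) :
    e.Prp D₀ (fun D => e.nS D = 2 ∧ e.nS' D = 2) (lam 1 0) := by
  obtain ⟨g, d, h1, h2, rfl⟩ := e.dec h
  rw [← e.t_cu g h2] at ht
  have k : e.Prp (UU g * d) e.SmD (lam 1 0) := e.prp_mk (e.law_sm g h2 h1 ht)
  refine e.prp_congr (fun D hD => ?_) k
  have k3 := (e.rs_le hD).2
  have k4 := e.rs_pos hD
  constructor
  · rintro ⟨k1, k2⟩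
    rw [k1] at k3
    exact ⟨k1, by omega⟩
  · rintro ⟨k1, k2⟩
    exact ⟨k1, k2.le⟩

/-- **the orders of the Selmer groups of the twists** -/
theorem sel_tail : ∃ C : ℝ, 0 < C ∧ ∀ R : ℕ, ∀ᶠ X : ℕ in atTop,
    (((Sq X).filter fun D => 4 * 4 ^ R < e.nS D * e.nS' D).card : ℝ) ≤
      C ^ (R + 1) / 2 ^ ((R + 1) * R) * ((Sq X).card : ℝ) := by
  -- the constants
  have h1 : ∀ κ : e.KK, ∃ C : ℝ, 0 < C ∧ ∀ R : ℕ,
      |1 - ∑ r ∈ range (R + 1), lam (e.cκ κ).t r| < C ^ (R + 1) / 2 ^ ((R + 1) * R) ∧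
      |1 - ∑ r ∈ range (R + 1), lam (e.cδ κ).t r| < C ^ (R + 1) / 2 ^ ((R + 1) * R) := by
    intro κ
    obtain ⟨C₁, hC₁, hT₁⟩ := lam_tail (e.cκ κ).t_pos.le
    obtain ⟨C₂, hC₂, hT₂⟩ := lam_tail (e.cδ κ).t_pos.le
    have ht₁ := (e.cκ κ).t_pos
    have ht₂ := (e.cδ κ).t_pos
    refine ⟨(C₁ + 1) * (e.cκ κ).t + (C₂ + 1) * (e.cδ κ).t, by positivity, fun R => ?_⟩
    have key : ∀ c t s : ℝ, 0 < c → 0 < t → 0 < s → c * t ^ (R + 1) < ((c + 1) * t + s) ^ (R + 1) := by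
      intro c t s hc ht hs
      have k1 : (c + 1) * t < (c + 1) * t + s := by linarith
      have k2 : ((c + 1) * t) ^ (R + 1) < ((c + 1) * t + s) ^ (R + 1) :=
        pow_lt_pow_left₀ k1 (by positivity) (Nat.succ_ne_zero R)
      have k3 : c * t ^ (R + 1) ≤ ((c + 1) * t) ^ (R + 1) := by
        rw [mul_pow]
        refine mul_le_mul_of_nonneg_right ?_ (by positivity)
        have : (1 : ℝ) ≤ c + 1 := by linarith
        calc c ≤ c + 1 := by linarith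
          _ = (c + 1) ^ 1 := (pow_one _).symm
          _ ≤ (c + 1) ^ (R + 1) := pow_le_pow_right₀ this (by omega)
      exact k3.trans_lt k2
    constructor
    · refine (hT₁ R).trans_lt (div_lt_div_of_pos_right ?_ (by positivity))
      exact key _ _ _ hC₁ ht₁ (by positivity)
    · refine (hT₂ R).trans_lt (div_lt_div_of_pos_right ?_ (by positivity))
      have := key _ _ ((C₁ + 1) * (e.cκ κ).t) hC₂ ht₂ (by positivity)
      rw [add_comm ((C₂ + 1) * (e.cδ κ).t)] at this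
      exact this
  choose c hc hT using h1
  have hne : Nonempty e.KK := ⟨0⟩
  set C₀ : ℝ := ∑ κ, c κ with hC₀
  have hC₀p : 0 < C₀ := sum_pos (fun κ _ => hc κ) univ_nonempty
  have hle : ∀ κ, c κ ≤ C₀ := fun κ => single_le_sum (fun κ _ => (hc κ).le) (mem_univ κ)
  refine ⟨2 * C₀, by positivity, fun R => ?_⟩
  have hcls : ∀ X, (Sq X).card = ∑ κ : e.KK,
      ((Sq X).filter fun D => Same e.a e.b (e.rep κ) D).card := by
    intro X
    refine Eq.trans ?_ ((e.sum_cls X fun _ => True).trans ?_)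
    · exact (congrArg Finset.card (filt_true _ fun _ => trivial)).symm
    exact sum_congr rfl fun κ _ => cardS (fun D => ⟨fun h => h.1, fun h => ⟨h, trivial⟩⟩) _
  have h3 : ∀ (c' : e.KK → Cq) (n : ℤ → ℕ) (_ : ∀ (κ : e.KK) (r : ℕ),
      Tendsto (fun X : ℕ => (((Sq X).filter fun D => Same e.a e.b (e.rep κ) D ∧
        n D = 2 ^ (r + 1)).card : ℝ) /
      (((Sq X).filter fun D => Same e.a e.b (e.rep κ) D).card : ℝ)) atTop
      (𝓝 (lam (c' κ).t r))) (_ : ∀ κ, |1 - ∑ r ∈ range (R + 1), lam (c' κ).t r| <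
        c κ ^ (R + 1) / 2 ^ ((R + 1) * R)), ∀ᶠ X : ℕ in atTop,
      (((Sq X).filter (BigN n R)).card : ℝ) ≤
        C₀ ^ (R + 1) / 2 ^ ((R + 1) * R) * ((Sq X).card : ℝ) := by
    intro c' n hlaw htl
    refine tail_all Sq (fun κ D => Same e.a e.b (e.rep κ) D) (BigN n R) hcls
      (fun X => e.sum_cls X (BigN n R)) fun κ => ?_
    refine tail_lim (hlaw κ) R ((htl κ).trans_le ?_)
    exact div_le_div_of_nonneg_right (pow_le_pow_left₀ (hc κ).le (hle κ) _) (by positivity)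
  filter_upwards [h3 e.cκ e.nS e.lawκ fun κ => (hT κ R).1, h3 e.cδ e.nS' e.lawκ' fun κ => (hT κ R).2]
    with X hX hX'
  have h4 : (Sq X).filter (fun D => 4 * 4 ^ R < e.nS D * e.nS' D) ⊆
      ((Sq X).filter (BigN e.nS R)) ∪ ((Sq X).filter (BigN e.nS' R)) := by
    intro D hD
    rw [mem_filter] at hD
    rw [mem_union, mem_filter, mem_filter]
    by_contra hcon
    have h5 : (∃ r ≤ R, e.nS D = 2 ^ (r + 1)) ∧ ∃ r ≤ R, e.nS' D = 2 ^ (r + 1) := by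
      constructor
      · by_contra h6
        exact hcon (Or.inl ⟨hD.1, fun r hr hn => h6 ⟨r, hr, hn⟩⟩)
      · by_contra h6
        exact hcon (Or.inr ⟨hD.1, fun r hr hn => h6 ⟨r, hr, hn⟩⟩)
    obtain ⟨⟨r, hr, h6⟩, r', hr', h7⟩ := h5
    have h9 : 2 ^ (r + 1) * 2 ^ (r' + 1) ≤ 4 * 4 ^ R := by
      have e1 : 4 * 4 ^ R = 2 ^ (R + 1) * 2 ^ (R + 1) := by
        have : (4 : ℕ) = 2 * 2 := rfl
        rw [this, mul_pow, pow_succ]
        ring
      rw [e1]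
      exact Nat.mul_le_mul (Nat.pow_le_pow_right (by norm_num) (by omega))
        (Nat.pow_le_pow_right (by norm_num) (by omega))
    have h8 := hD.2
    rw [h6, h7] at h8
    omega
  have h5 : (((Sq X).filter fun D => 4 * 4 ^ R < e.nS D * e.nS' D).card : ℝ) ≤
      (((Sq X).filter (BigN e.nS R)).card : ℝ) + (((Sq X).filter (BigN e.nS' R)).card : ℝ) := by
    exact_mod_cast (card_le_card h4).trans (card_union_le _ _)
  have h6 : 2 * (C₀ ^ (R + 1) / 2 ^ ((R + 1) * R)) ≤ (2 * C₀) ^ (R + 1) / 2 ^ ((R + 1) * R) := by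
    rw [mul_pow, mul_div_assoc]
    refine mul_le_mul_of_nonneg_right ?_ (by positivity)
    calc (2 : ℝ) = 2 ^ 1 := (pow_one _).symm
      _ ≤ 2 ^ (R + 1) := pow_le_pow_right₀ (by norm_num) (by omega)
  have h7 := mul_le_mul_of_nonneg_right h6 (Nat.cast_nonneg (α := ℝ) (Sq X).card)
  linarith

/-- **a positive proportion of the twists** -/
theorem pos_sm {D₀ : ℤ} (hD : Squarefree D₀) (ht : e.tau D₀ = 1) : ∃ η : ℝ, 0 < η ∧
    ∀ᶠ X : ℕ in atTop, η * (X : ℝ) ≤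
      (((Sq X).filter fun D => e.nS D = 2 ∧ e.nS' D = 2).card : ℝ) := by
  have h1 := e.facts_sm hD ht
  obtain ⟨η, X₀, hη, hX₀⟩ := e.density hD
  have hl : 0 < lam 1 0 := by
    have := lam_one.1
    linarith
  refine ⟨lam 1 0 / 2 * η, by positivity, ?_⟩
  filter_upwards [h1.eventually (lt_mem_nhds (half_lt_self hl)), eventually_ge_atTop X₀,
    eventually_ge_atTop 1] with X hX hX0 hX1
  have h2 := hX₀ X hX0
  have hX1' : (1 : ℝ) ≤ X := by exact_mod_cast hX1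
  have hN : (0 : ℝ) < (((Sq X).filter fun D => Same e.a e.b D₀ D).card : ℝ) := by
    refine lt_of_lt_of_le ?_ h2
    positivity
  rw [lt_div_iff₀ hN] at hX
  have h3 : (((Sq X).filter fun D => Same e.a e.b D₀ D ∧ (e.nS D = 2 ∧ e.nS' D = 2)).card : ℝ) ≤
      (((Sq X).filter fun D => e.nS D = 2 ∧ e.nS' D = 2).card : ℝ) := by
    refine Nat.cast_le.2 (card_le_card fun D hD => ?_)
    rw [mem_filter] at hD ⊢
    exact ⟨hD.1, hD.2.2⟩
  calc lam 1 0 / 2 * η * (X : ℝ) = lam 1 0 / 2 * (η * X) := by ring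
    _ ≤ lam 1 0 / 2 * (((Sq X).filter fun D => Same e.a e.b D₀ D).card : ℝ) :=
        mul_le_mul_of_nonneg_left h2 (by positivity)
    _ ≤ _ := hX.le.trans (le_trans (le_of_eq (congrArg Nat.cast (cardS (fun D => Iff.rfl) _))) h3)

end Cz

end Q44.BS
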